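import Mathlib

set_option autoImplicit false

/-!
A complete Boolean algebra which carries a continuous outer measure, and all of whose countably
generated complete subalgebras admit measures, admits a measure.
-/

namespace Pool.Agent.Results.MP_2d6919_lc.MaharamSubalgebras

open Set Filter Topology

universe u

/-- A measure on a Boolean algebra: a map to the nonnegative reals which is strictly positive and
countably additive (over all pairwise disjoint sequences whose supremum exists). -/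
structure IsMeasure {A : Type u} [BooleanAlgebra A] (μ : A → ℝ) : Prop where
  nonneg : ∀ a, 0 ≤ μ a
  pos : ∀ a, a ≠ ⊥ → 0 < μ a
  hasSum : ∀ (a : ℕ → A) (b : A), (∀ i j, i ≠ j → Disjoint (a i) (a j)) → IsLUB (range a) b →
    HasSum (fun n => μ (a n)) (μ b)

/-- A continuous outer measure on a complete Boolean algebra. -/
structure IsContinuousOuterMeasure {B : Type u} [CompleteBooleanAlgebra B] (m : B → ℝ) :
    Prop where
  bot : m ⊥ = 0
  pos : ∀ a, a ≠ ⊥ → 0 < m a
  mono : ∀ a b, a ≤ b → m a ≤ m b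
  sup_le : ∀ a b, m (a ⊔ b) ≤ m a + m b
  cont : ∀ a : ℕ → B, Antitone a → ⨅ n, a n = ⊥ → Tendsto (fun n => m (a n)) atTop (𝓝 0)

/-- A complete subalgebra: a subalgebra closed under all suprema and infima taken in `B`. -/
def IsCompleteSubalgebra {B : Type u} [CompleteBooleanAlgebra B] (C : BooleanSubalgebra B) :
    Prop :=
  ∀ s : Set B, s ⊆ (C : Set B) → sSup s ∈ C ∧ sInf s ∈ C

/-- `C` is generated by a countable set: it contains a countable set `S` and is contained in every
complete subalgebra which contains `S`. -/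
def IsCountablyGenerated {B : Type u} [CompleteBooleanAlgebra B] (C : BooleanSubalgebra B) :
    Prop :=
  ∃ S : Set B, S.Countable ∧ S ⊆ (C : Set B) ∧
    ∀ D : BooleanSubalgebra B, IsCompleteSubalgebra D → S ⊆ (D : Set B) → C ≤ D

section general

variable {A : Type u} [BooleanAlgebra A] {μ : A → ℝ}

theorem IsMeasure.bot (hμ : IsMeasure μ) : μ ⊥ = 0 := by
  have h := hμ.hasSum (fun _ => ⊥) ⊥ (fun _ _ _ => disjoint_bot_left) (by
    rw [range_const]; exact isLUB_singleton)
  have h2 : Summable (fun _ : ℕ => μ ⊥) := h.summable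
  rwa [summable_const_iff] at h2

theorem IsMeasure.add (hμ : IsMeasure μ) {a b : A} (hab : Disjoint a b) :
    μ (a ⊔ b) = μ a + μ b := by
  let f : ℕ → A := fun n => if n = 0 then a else if n = 1 then b else ⊥
  have h := hμ.hasSum f (a ⊔ b) (by
    intro i j hij
    simp only [f]
    split_ifs with h1 h2 h3 h4 h5 h6 <;>
      first
        | exact absurd (h1.trans h2.symm) hij
        | exact hab
        | exact disjoint_bot_right
        | exact hab.symm
        | exact absurd (h3.trans h4.symm) hij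
        | exact disjoint_bot_left
        | (exfalso; omega)) (by
    constructor
    · rintro _ ⟨n, rfl⟩
      simp only [f]
      split_ifs
      · exact le_sup_left
      · exact le_sup_right
      · exact bot_le
    · intro c hc
      apply sup_le
      · exact hc ⟨0, by simp [f]⟩
      · exact hc ⟨1, by simp [f]⟩)
  have h2 : HasSum (fun n => μ (f n)) (∑ n ∈ ({0, 1} : Finset ℕ), μ (f n)) := by
    apply hasSum_sum_of_ne_finset_zero
    intro n hn
    simp only [Finset.mem_insert, Finset.mem_singleton, not_or] at hn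
    simp only [f, if_neg hn.1, if_neg hn.2, hμ.bot]
  have h3 := h.unique h2
  rw [h3]
  simp [f]

theorem IsMeasure.mono (hμ : IsMeasure μ) {a b : A} (hab : a ≤ b) : μ a ≤ μ b := by
  have h := hμ.add (a := a) (b := b \ a) disjoint_sdiff_self_right
  rw [sup_sdiff_cancel_right hab] at h
  rw [h]
  linarith [hμ.nonneg (b \ a)]

theorem IsMeasure.le_of_hasSum (hμ : IsMeasure μ) (a : ℕ → A) (b : A) (hb : IsLUB (range a) b)
    (c : ℝ) (hc : HasSum (fun n => μ (a n)) c) : μ b ≤ c := by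
  have h := hμ.hasSum (disjointed a) b (fun i j hij => disjoint_disjointed a hij) (by
    constructor
    · rintro _ ⟨n, rfl⟩
      exact (disjointed_le a n).trans (hb.1 ⟨n, rfl⟩)
    · intro d hd
      apply hb.2
      rintro _ ⟨n, rfl⟩
      have h1 : partialSups (disjointed a) n ≤ d :=
        partialSups_le _ _ _ (fun k _ => hd ⟨k, rfl⟩)
      rw [partialSups_disjointed] at h1
      exact (le_partialSups a n).trans h1)
  exact hasSum_le (fun n => hμ.mono (disjointed_le a n)) h hc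

end general

variable {B : Type u} [CompleteBooleanAlgebra B] {m : B → ℝ}

theorem isLUB_sub {C : BooleanSubalgebra B} (a : ℕ → C) (b : C) (hb : (b : B) = ⨆ n, (a n : B)) :
    IsLUB (range a) b := by
  constructor
  · rintro _ ⟨n, rfl⟩
    show (a n : B) ≤ (b : B)
    rw [hb]
    exact le_iSup (fun n => (a n : B)) n
  · intro c hc
    show (b : B) ≤ (c : B)
    rw [hb]
    exact iSup_le fun n => hc ⟨n, rfl⟩

/-- A continuous outer measure is absolutely continuous with respect to each measure on a complete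
subalgebra. -/
theorem abs_cont (hm : IsContinuousOuterMeasure m) {C : BooleanSubalgebra B}
    (hC : IsCompleteSubalgebra C) {μ : C → ℝ} (hμ : IsMeasure μ) {ε : ℝ} (hε : 0 < ε) :
    ∃ δ > 0, ∀ a : C, ε ≤ m a → δ ≤ μ a := by
  by_contra hcon
  push Not at hcon
  have h1 : ∀ n : ℕ, ∃ a : C, ε ≤ m a ∧ μ a < (1 / 2 : ℝ) ^ n := fun n => hcon _ (by positivity)
  choose a ha hμa using h1
  have hbC : ∀ n, (⨆ k, (a (n + k) : B)) ∈ C := fun n =>
    (hC (range fun k => (a (n + k) : B)) (by rintro _ ⟨k, rfl⟩; exact (a (n + k)).2)).1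
  let b : ℕ → C := fun n => ⟨⨆ k, (a (n + k) : B), hbC n⟩
  have hcC : (⨅ n, (b n : B)) ∈ C :=
    (hC (range fun n => (b n : B)) (by rintro _ ⟨k, rfl⟩; exact (b k).2)).2
  let c : C := ⟨⨅ n, (b n : B), hcC⟩
  have hbn : ∀ n, μ (b n) ≤ 2 * (1 / 2 : ℝ) ^ n := by
    intro n
    have hs : HasSum (fun k : ℕ => (1 / 2 : ℝ) ^ (n + k)) (2 * (1 / 2 : ℝ) ^ n) := by
      have := (hasSum_geometric_of_lt_one (r := (1 / 2 : ℝ)) (by norm_num)
        (by norm_num)).mul_left ((1 / 2 : ℝ) ^ n)
      have h2 : (1 / 2 : ℝ) ^ n * (1 - 1 / 2)⁻¹ = 2 * (1 / 2 : ℝ) ^ n := by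
        rw [mul_comm]
        norm_num
      rw [h2] at this
      simpa only [pow_add] using this
    have hs2 : Summable (fun k : ℕ => μ (a (n + k))) :=
      Summable.of_nonneg_of_le (fun k => hμ.nonneg _) (fun k => (hμa (n + k)).le) hs.summable
    refine (hμ.le_of_hasSum (fun k => a (n + k)) (b n) (isLUB_sub _ _ rfl) _ hs2.hasSum).trans ?_
    exact hasSum_le (fun k => (hμa (n + k)).le) hs2.hasSum hs
  have hc0 : μ c ≤ 0 := by
    have ht : Tendsto (fun n : ℕ => 2 * (1 / 2 : ℝ) ^ n) atTop (𝓝 (2 * 0)) :=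
      (tendsto_pow_atTop_nhds_zero_of_lt_one (by norm_num) (by norm_num)).const_mul 2
    rw [mul_zero] at ht
    refine ge_of_tendsto' ht fun n => ?_
    refine (hμ.mono ?_).trans (hbn n)
    show (⨅ n, (b n : B)) ≤ (b n : B)
    exact iInf_le _ n
  have hcbot : c = ⊥ := by
    by_contra hne
    exact absurd (hμ.pos c hne) (not_lt.mpr hc0)
  have hcB : (⨅ n, (b n : B)) = ⊥ := congrArg Subtype.val hcbot
  have hanti : Antitone (fun n => (b n : B)) := by
    intro i j hij
    show (⨆ k, (a (j + k) : B)) ≤ ⨆ k, (a (i + k) : B)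
    refine iSup_le fun k => ?_
    obtain ⟨l, hl⟩ : ∃ l, j + k = i + l := ⟨j + k - i, by omega⟩
    rw [hl]
    exact le_iSup (fun k => (a (i + k) : B)) l
  have ht := hm.cont _ hanti hcB
  have : ε ≤ 0 := by
    refine ge_of_tendsto' ht fun n => ?_
    refine (ha n).trans (hm.mono _ _ ?_)
    exact le_iSup (fun k => (a (n + k) : B)) 0
  linarith

/-- The complete subalgebra generated by a set. -/
def gen (S : Set B) : BooleanSubalgebra B :=
  sInf {D : BooleanSubalgebra B | IsCompleteSubalgebra D ∧ S ⊆ (D : Set B)}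

theorem subset_gen (S : Set B) : S ⊆ (gen S : Set B) := by
  intro a ha
  show a ∈ gen S
  rw [gen, BooleanSubalgebra.mem_sInf]
  exact fun D hD => hD.2 ha

theorem gen_le {S : Set B} {D : BooleanSubalgebra B} (hD : IsCompleteSubalgebra D)
    (hS : S ⊆ (D : Set B)) : gen S ≤ D := sInf_le ⟨hD, hS⟩

theorem complete_gen (S : Set B) : IsCompleteSubalgebra (gen S) := by
  intro s hs
  constructor
  · rw [gen, BooleanSubalgebra.mem_sInf]
    exact fun D hD => (hD.1 s (hs.trans (gen_le hD.1 hD.2))).1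
  · rw [gen, BooleanSubalgebra.mem_sInf]
    exact fun D hD => (hD.1 s (hs.trans (gen_le hD.1 hD.2))).2

theorem cg_gen {S : Set B} (hS : S.Countable) : IsCountablyGenerated (gen S) :=
  ⟨S, hS, subset_gen S, fun _ hD hSD => gen_le hD hSD⟩

/-- There is a bounded finitely additive function on `C` which is at least `δ` on all members of
`C` of outer measure at least `ε`. -/
def Good (m : B → ℝ) (C : BooleanSubalgebra B) (ε δ : ℝ) : Prop :=
  ∃ ν : B → ℝ, (∀ a, ν a ∈ Icc (0 : ℝ) 1) ∧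
    (∀ a ∈ C, ∀ b ∈ C, Disjoint a b → ν (a ⊔ b) = ν a + ν b) ∧ ∀ a ∈ C, ε ≤ m a → δ ≤ ν a

theorem Good.mono {C C' : BooleanSubalgebra B} {ε δ δ' : ℝ} (h : Good m C ε δ) (hC : C' ≤ C)
    (hδ : δ' ≤ δ) : Good m C' ε δ' := by
  obtain ⟨ν, h1, h2, h3⟩ := h
  exact ⟨ν, h1, fun a ha b hb => h2 a (hC ha) b (hC hb), fun a ha he => hδ.trans (h3 a (hC ha) he)⟩

theorem good_of_measure (hm : IsContinuousOuterMeasure m) {C : BooleanSubalgebra B}
    (hC : IsCompleteSubalgebra C) {μ : C → ℝ} (hμ : IsMeasure μ) {ε : ℝ} (hε : 0 < ε) :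
    ∃ δ > 0, Good m C ε δ := by
  obtain ⟨δ, hδ, h⟩ := abs_cont hm hC hμ hε
  have hM : 0 < μ ⊤ + 1 := by linarith [hμ.nonneg ⊤]
  classical
  refine ⟨δ / (μ ⊤ + 1), by positivity, fun a => if h : a ∈ C then μ ⟨a, h⟩ / (μ ⊤ + 1) else 0,
    ?_, ?_, ?_⟩
  · intro a
    dsimp only
    split_ifs with ha
    · constructor
      · exact div_nonneg (hμ.nonneg _) hM.le
      · rw [div_le_one hM]
        linarith [hμ.mono (le_top : (⟨a, ha⟩ : C) ≤ ⊤)]
    · simp
  · intro a ha b hb hab
    dsimp only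
    rw [dif_pos (BooleanSubalgebra.sup_mem ha hb), dif_pos ha, dif_pos hb, ← add_div]
    congr 1
    have hdis : Disjoint (⟨a, ha⟩ : C) ⟨b, hb⟩ := by
      rw [disjoint_iff]
      apply Subtype.ext
      exact hab.eq_bot
    exact hμ.add hdis
  · intro a ha he
    dsimp only
    rw [dif_pos ha]
    exact div_le_div_of_nonneg_right (h ⟨a, ha⟩ he) hM.le

theorem uniform (hm : IsContinuousOuterMeasure m)
    (hsub : ∀ C : BooleanSubalgebra B, IsCompleteSubalgebra C → IsCountablyGenerated C →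
      ∃ μ : C → ℝ, IsMeasure μ) {ε : ℝ} (hε : 0 < ε) :
    ∃ δ > 0, ∀ S : Set B, S.Countable → Good m (gen S) ε δ := by
  by_contra hcon
  push Not at hcon
  have h1 : ∀ n : ℕ, ∃ S : Set B, S.Countable ∧ ¬ Good m (gen S) ε (1 / (n + 1)) :=
    fun n => hcon _ (by positivity)
  choose S hS hbad using h1
  obtain ⟨μ, hμ⟩ := hsub (gen (⋃ n, S n)) (complete_gen _) (cg_gen (countable_iUnion hS))
  obtain ⟨δ, hδ, hgood⟩ := good_of_measure hm (complete_gen _) hμ hε
  obtain ⟨n, hn⟩ := exists_nat_one_div_lt hδ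
  exact hbad n (hgood.mono (gen_le (complete_gen _) ((subset_iUnion S n).trans (subset_gen _)))
    hn.le)

theorem exists_charge (hm : IsContinuousOuterMeasure m)
    (hsub : ∀ C : BooleanSubalgebra B, IsCompleteSubalgebra C → IsCountablyGenerated C →
      ∃ μ : C → ℝ, IsMeasure μ) {ε : ℝ} (hε : 0 < ε) :
    ∃ ν : B → ℝ, (∀ a, ν a ∈ Icc (0 : ℝ) 1) ∧
      (∀ a b, Disjoint a b → ν (a ⊔ b) = ν a + ν b) ∧ ∃ δ > 0, ∀ a, ε ≤ m a → δ ≤ ν a := by
  obtain ⟨δ, hδ, h⟩ := uniform hm hsub hε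
  have h1 : ∀ F : Finset B, Good m (gen (F : Set B)) ε δ := fun F => h _ F.countable_toSet
  choose ν hν hadd hlow using h1
  let U : Ultrafilter (Finset B) := Ultrafilter.of atTop
  have hU : (U : Filter (Finset B)) ≤ atTop := Ultrafilter.of_le atTop
  have hlim : ∀ a : B, ∃ x ∈ Icc (0 : ℝ) 1, Tendsto (fun F => ν F a) U (𝓝 x) := by
    intro a
    obtain ⟨x, hx, hle⟩ := (isCompact_Icc (a := (0 : ℝ)) (b := 1)).ultrafilter_le_nhds
      (U.map fun F => ν F a) (by
        rw [le_principal_iff]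
        exact Filter.mem_map.mpr (Filter.univ_mem' fun F => hν F a))
    exact ⟨x, hx, hle⟩
  choose L hL hLt using hlim
  have hev : ∀ a : B, ∀ᶠ F : Finset B in (U : Filter (Finset B)), a ∈ gen (F : Set B) := by
    intro a
    have : ∀ᶠ F : Finset B in (atTop : Filter (Finset B)), a ∈ gen (F : Set B) := by
      filter_upwards [eventually_ge_atTop {a}] with F hF
      exact subset_gen _ (Finset.mem_coe.mpr (hF (Finset.mem_singleton_self a)))
    exact hU this
  refine ⟨L, hL, ?_, δ, hδ, ?_⟩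
  · intro a b hab
    refine tendsto_nhds_unique (hLt (a ⊔ b)) (((hLt a).add (hLt b)).congr' ?_)
    filter_upwards [hev a, hev b] with F ha hb
    exact (hadd F a ha b hb hab).symm
  · intro a ha
    refine ge_of_tendsto (hLt a) ?_
    filter_upwards [hev a] with F haF
    exact hlow F a haF ha

theorem exists_charge_pos (hm : IsContinuousOuterMeasure m)
    (hsub : ∀ C : BooleanSubalgebra B, IsCompleteSubalgebra C → IsCountablyGenerated C →
      ∃ μ : C → ℝ, IsMeasure μ) :
    ∃ ν : B → ℝ, (∀ a, 0 ≤ ν a) ∧ (∀ a b, Disjoint a b → ν (a ⊔ b) = ν a + ν b) ∧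
      ∀ a, a ≠ ⊥ → 0 < ν a := by
  have h1 : ∀ j : ℕ, ∃ ν : B → ℝ, (∀ a, ν a ∈ Icc (0 : ℝ) 1) ∧
      (∀ a b, Disjoint a b → ν (a ⊔ b) = ν a + ν b) ∧
      ∃ δ > 0, ∀ a, (1 / (j + 1) : ℝ) ≤ m a → δ ≤ ν a :=
    fun j => exists_charge hm hsub (by positivity)
  choose ν hν hadd hlow using h1
  have hs : ∀ a, Summable (fun j => (1 / 2 : ℝ) ^ j * ν j a) := by
    intro a
    refine Summable.of_nonneg_of_le (fun j => mul_nonneg (by positivity) (hν j a).1) (fun j => ?_)
      (summable_geometric_of_lt_one (r := (1 / 2 : ℝ)) (by norm_num) (by norm_num))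
    exact mul_le_of_le_one_right (by positivity) (hν j a).2
  refine ⟨fun a => ∑' j, (1 / 2 : ℝ) ^ j * ν j a, fun a => tsum_nonneg fun j =>
    mul_nonneg (by positivity) (hν j a).1, ?_, ?_⟩
  · intro a b hab
    rw [← (hs a).tsum_add (hs b)]
    refine tsum_congr fun j => ?_
    rw [hadd j a b hab]
    ring
  · intro a ha
    obtain ⟨j, hj⟩ := exists_nat_one_div_lt (hm.pos a ha)
    obtain ⟨δ, hδ, h⟩ := hlow j
    refine (hs a).tsum_pos (fun j => mul_nonneg (by positivity) (hν j a).1) j ?_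
    exact mul_pos (by positivity) (hδ.trans_le (h a hj.le))

/-- A continuous outer measure is countably subadditive. -/
theorem countable_subadd (hm : IsContinuousOuterMeasure m) (a : ℕ → B) (c : ℝ)
    (hc : ∀ n : ℕ, ∑ k ∈ Finset.range n, m (a k) ≤ c) : m (⨆ n, a n) ≤ c := by
  have h1 : ∀ n : ℕ, m (⨆ k ∈ Finset.range n, a k) ≤ ∑ k ∈ Finset.range n, m (a k) := by
    intro n
    induction n with
    | zero => simp [hm.bot]
    | succ n ih =>
      rw [Finset.sum_range_succ, Finset.range_add_one, Finset.iSup_insert, sup_comm]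
      exact (hm.sup_le _ _).trans (by linarith)
  let d : ℕ → B := fun n => (⨆ n, a n) \ ⨆ k ∈ Finset.range n, a k
  have hanti : Antitone d := by
    intro i j hij
    refine sdiff_le_sdiff_left ?_
    exact biSup_mono fun k hk => Finset.mem_range.mpr ((Finset.mem_range.mp hk).trans_le hij)
  have hinf : ⨅ n, d n = ⊥ := by
    rw [eq_bot_iff]
    have h2 : ⨅ n, d n ≤ ⨆ n, a n := (iInf_le d 0).trans sdiff_le
    have h3 : ∀ k, Disjoint (⨅ n, d n) (a k) := by
      intro k
      refine Disjoint.mono_left (iInf_le d (k + 1)) ?_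
      refine Disjoint.mono_right ?_ disjoint_sdiff_self_left
      exact le_iSup₂ (f := fun j (_ : j ∈ Finset.range (k + 1)) => a j) k
        (Finset.mem_range.mpr (Nat.lt_succ_self k))
    have h4 : Disjoint (⨅ n, d n) (⨆ n, a n) := disjoint_iSup_iff.mpr h3
    exact (h4.mono_right h2).eq_bot_of_self.le
  have ht := hm.cont d hanti hinf
  have h5 : ∀ n, m (⨆ n, a n) ≤ c + m (d n) := by
    intro n
    have h6 : (⨆ n, a n) ≤ (⨆ k ∈ Finset.range n, a k) ⊔ d n := by
      simp only [d]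
      rw [sup_sdiff_self_right]
      exact le_sup_right
    exact (hm.mono _ _ h6).trans ((hm.sup_le _ _).trans (by linarith [h1 n, hc n]))
  have ht2 : Tendsto (fun n => c + m (d n)) atTop (𝓝 (c + 0)) := ht.const_add c
  rw [add_zero] at ht2
  exact ge_of_tendsto' ht2 h5

/-! ### The countably additive part of a charge -/

/-- The sums of a charge over the countable partitions of an element. -/
def Sums (ν : B → ℝ) (a : B) : Set ℝ :=
  {c | ∃ p : ℕ → B, (∀ i j, i ≠ j → Disjoint (p i) (p j)) ∧ (⨆ n, p n) = a ∧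
    HasSum (fun n => ν (p n)) c}

/-- The countably additive part of a charge. -/
noncomputable def ctble (ν : B → ℝ) (a : B) : ℝ := sInf (Sums ν a)

section ctble

variable {ν : B → ℝ}

theorem nu_bot (hadd : ∀ a b, Disjoint a b → ν (a ⊔ b) = ν a + ν b) : ν ⊥ = 0 := by
  have := hadd ⊥ ⊥ disjoint_bot_left
  rw [sup_idem] at this
  linarith

theorem nu_mono (h0 : ∀ a, 0 ≤ ν a) (hadd : ∀ a b, Disjoint a b → ν (a ⊔ b) = ν a + ν b)
    {a b : B} (hab : a ≤ b) : ν a ≤ ν b := by
  have h := hadd a (b \ a) disjoint_sdiff_self_right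
  rw [sup_sdiff_cancel_right hab] at h
  rw [h]
  linarith [h0 (b \ a)]

theorem nu_finset (hadd : ∀ a b, Disjoint a b → ν (a ⊔ b) = ν a + ν b) (p : ℕ → B)
    (hp : ∀ i j, i ≠ j → Disjoint (p i) (p j)) (n : ℕ) :
    ν (⨆ k ∈ Finset.range n, p k) = ∑ k ∈ Finset.range n, ν (p k) := by
  induction n with
  | zero => simp [nu_bot hadd]
  | succ n ih =>
    rw [Finset.sum_range_succ, Finset.range_add_one, Finset.iSup_insert, sup_comm, hadd, ih]
    rw [disjoint_comm, disjoint_iSup₂_iff]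
    intro k hk
    exact hp n k (by have := Finset.mem_range.mp hk; omega)

theorem nu_summable (h0 : ∀ a, 0 ≤ ν a) (hadd : ∀ a b, Disjoint a b → ν (a ⊔ b) = ν a + ν b)
    (p : ℕ → B) (hp : ∀ i j, i ≠ j → Disjoint (p i) (p j)) : Summable (fun n => ν (p n)) := by
  refine summable_of_sum_range_le (c := ν ⊤) (fun n => h0 _) fun n => ?_
  rw [← nu_finset hadd p hp]
  exact nu_mono h0 hadd le_top

theorem sums_nonneg (h0 : ∀ a, 0 ≤ ν a) {a : B} {c : ℝ} (hc : c ∈ Sums ν a) : 0 ≤ c := by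
  obtain ⟨p, _, _, h⟩ := hc
  exact h.nonneg fun n => h0 _

theorem sums_bdd (h0 : ∀ a, 0 ≤ ν a) (a : B) : BddBelow (Sums ν a) :=
  ⟨0, fun _ hc => sums_nonneg h0 hc⟩

theorem sums_nonempty (h0 : ∀ a, 0 ≤ ν a) (hadd : ∀ a b, Disjoint a b → ν (a ⊔ b) = ν a + ν b)
    (a : B) : (Sums ν a).Nonempty := by
  let p : ℕ → B := fun n => if n = 0 then a else ⊥
  have hp : ∀ i j, i ≠ j → Disjoint (p i) (p j) := by
    intro i j hij
    simp only [p]
    split_ifs with h1 h2
    · exact absurd (h1.trans h2.symm) hij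
    · exact disjoint_bot_right
    · exact disjoint_bot_left
    · exact disjoint_bot_left
  refine ⟨_, p, hp, ?_, (nu_summable h0 hadd p hp).hasSum⟩
  apply le_antisymm
  · refine iSup_le fun n => ?_
    simp only [p]
    split_ifs
    · exact le_rfl
    · exact bot_le
  · exact le_iSup_of_le 0 (by simp [p])

theorem ctble_nonneg (h0 : ∀ a, 0 ≤ ν a) (a : B) : 0 ≤ ctble ν a :=
  Real.sInf_nonneg fun _ hc => sums_nonneg h0 hc

theorem ctble_superadd (h0 : ∀ a, 0 ≤ ν a) (hadd : ∀ a b, Disjoint a b → ν (a ⊔ b) = ν a + ν b)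
    {a b : B} (hab : Disjoint a b) : ctble ν a + ctble ν b ≤ ctble ν (a ⊔ b) := by
  refine le_csInf (sums_nonempty h0 hadd _) ?_
  rintro c ⟨p, hp, hpa, hc⟩
  have key : ∀ d : B, d ≤ a ⊔ b → (∀ i j, i ≠ j → Disjoint (p i ⊓ d) (p j ⊓ d)) ∧
      (⨆ n, p n ⊓ d) = d := by
    intro d hd
    refine ⟨fun i j hij => (hp i j hij).mono inf_le_left inf_le_left, ?_⟩
    rw [← iSup_inf_eq, hpa]
    exact inf_eq_right.mpr hd
  obtain ⟨ha1, ha2⟩ := key a le_sup_left
  obtain ⟨hb1, hb2⟩ := key b le_sup_right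
  have hsa := (nu_summable h0 hadd _ ha1).hasSum
  have hsb := (nu_summable h0 hadd _ hb1).hasSum
  have h1 : ctble ν a ≤ ∑' n, ν (p n ⊓ a) := csInf_le (sums_bdd h0 _) ⟨_, ha1, ha2, hsa⟩
  have h2 : ctble ν b ≤ ∑' n, ν (p n ⊓ b) := csInf_le (sums_bdd h0 _) ⟨_, hb1, hb2, hsb⟩
  have h3 : (fun n => ν (p n)) = fun n => ν (p n ⊓ a) + ν (p n ⊓ b) := by
    funext n
    rw [← hadd _ _ (hab.mono inf_le_right inf_le_right), ← inf_sup_left]
    congr 1
    have : p n ≤ a ⊔ b := by
      rw [← hpa]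
      exact le_iSup p n
    exact (inf_eq_left.mpr this).symm
  rw [h3] at hc
  have h4 := hc.unique (hsa.add hsb)
  linarith

theorem ctble_mono (h0 : ∀ a, 0 ≤ ν a) (hadd : ∀ a b, Disjoint a b → ν (a ⊔ b) = ν a + ν b)
    {a b : B} (hab : a ≤ b) : ctble ν a ≤ ctble ν b := by
  have h := ctble_superadd h0 hadd (a := a) (b := b \ a) disjoint_sdiff_self_right
  rw [sup_sdiff_cancel_right hab] at h
  linarith [ctble_nonneg h0 (b \ a)]

theorem ctble_finset (h0 : ∀ a, 0 ≤ ν a) (hadd : ∀ a b, Disjoint a b → ν (a ⊔ b) = ν a + ν b)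
    (p : ℕ → B) (hp : ∀ i j, i ≠ j → Disjoint (p i) (p j)) (n : ℕ) :
    ∑ k ∈ Finset.range n, ctble ν (p k) ≤ ctble ν (⨆ k ∈ Finset.range n, p k) := by
  induction n with
  | zero => simpa using ctble_nonneg h0 _
  | succ n ih =>
    rw [Finset.sum_range_succ, Finset.range_add_one, Finset.iSup_insert, sup_comm]
    refine le_trans (add_le_add_left ih _) (ctble_superadd h0 hadd ?_)
    rw [disjoint_comm, disjoint_iSup₂_iff]
    intro k hk
    exact hp n k (by have := Finset.mem_range.mp hk; omega)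

theorem ctble_le_tsum (h0 : ∀ a, 0 ≤ ν a) (hadd : ∀ a b, Disjoint a b → ν (a ⊔ b) = ν a + ν b)
    (p : ℕ → B) (hp : ∀ i j, i ≠ j → Disjoint (p i) (p j))
    (hs : Summable fun n => ctble ν (p n)) :
    ctble ν (⨆ n, p n) ≤ ∑' n, ctble ν (p n) := by
  refine le_of_forall_pos_le_add fun ε hε => ?_
  have h1 : ∀ n : ℕ, ∃ c ∈ Sums ν (p n), c < ctble ν (p n) + ε / 2 * (1 / 2) ^ n := by
    intro n
    exact exists_lt_of_csInf_lt (sums_nonempty h0 hadd _)
      (lt_add_of_pos_right _ (by positivity))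
  choose c hc hlt using h1
  choose q hq hqs hqsum using hc
  have hdis : ∀ x y : ℕ × ℕ, x ≠ y → Disjoint (q x.1 x.2) (q y.1 y.2) := by
    rintro ⟨i, k⟩ ⟨j, l⟩ hxy
    by_cases hij : i = j
    · subst hij
      exact hq i k l (fun h => hxy (by rw [h]))
    · refine (hp i j hij).mono ?_ ?_
      · rw [← hqs i]
        exact le_iSup (q i) k
      · rw [← hqs j]
        exact le_iSup (q j) l
  have hcs : Summable c := by
    refine Summable.of_nonneg_of_le (fun n => (hqsum n).nonneg fun k => h0 _)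
      (fun n => (hlt n).le) (hs.add ?_)
    exact (summable_geometric_of_lt_one (r := (1 / 2 : ℝ)) (by norm_num)
      (by norm_num)).mul_left _
  have hc2 : ∀ n, ∑' k, ν (q n k) = c n := fun n => (hqsum n).tsum_eq
  have hsum : Summable (fun x : ℕ × ℕ => ν (q x.1 x.2)) := by
    rw [summable_prod_of_nonneg (fun x => h0 _)]
    refine ⟨fun n => (hqsum n).summable, ?_⟩
    simp only [hc2]
    exact hcs
  have htot : ∑' x : ℕ × ℕ, ν (q x.1 x.2) = ∑' n, c n := by
    rw [hsum.tsum_prod]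
    simp only [hc2]
  let e : ℕ ≃ ℕ × ℕ := (Denumerable.eqv (ℕ × ℕ)).symm
  have hmem : (∑' x : ℕ × ℕ, ν (q x.1 x.2)) ∈ Sums ν (⨆ n, p n) := by
    refine ⟨fun n => q (e n).1 (e n).2, fun i j hij => hdis _ _ (e.injective.ne hij), ?_, ?_⟩
    · rw [e.iSup_comp (g := fun x : ℕ × ℕ => q x.1 x.2), iSup_prod]
      exact iSup_congr hqs
    · exact (e.hasSum_iff (f := fun x : ℕ × ℕ => ν (q x.1 x.2))).mpr hsum.hasSum
  refine (csInf_le (sums_bdd h0 _) hmem).trans ?_
  rw [htot]
  have hg := (hasSum_geometric_of_lt_one (r := (1 / 2 : ℝ)) (by norm_num)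
        (by norm_num)).mul_left (ε / 2)
  have hg2 : ε / 2 * (1 - 1 / 2)⁻¹ = ε := by
    norm_num
  rw [hg2] at hg
  exact hasSum_le (fun n => (hlt n).le) hcs.hasSum (hs.hasSum.add hg)

theorem ctble_hasSum (h0 : ∀ a, 0 ≤ ν a) (hadd : ∀ a b, Disjoint a b → ν (a ⊔ b) = ν a + ν b)
    (p : ℕ → B) (hp : ∀ i j, i ≠ j → Disjoint (p i) (p j)) :
    HasSum (fun n => ctble ν (p n)) (ctble ν (⨆ n, p n)) := by
  have hle : ∀ n : ℕ, ∑ k ∈ Finset.range n, ctble ν (p k) ≤ ctble ν (⨆ n, p n) := fun n =>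
    (ctble_finset h0 hadd p hp n).trans
      (ctble_mono h0 hadd (iSup₂_le fun k _ => le_iSup p k))
  have hs : Summable fun n => ctble ν (p n) :=
    summable_of_sum_range_le (fun n => ctble_nonneg h0 _) hle
  have h1 : ∑' n, ctble ν (p n) = ctble ν (⨆ n, p n) := by
    apply le_antisymm
    · exact Real.tsum_le_of_sum_range_le (fun n => ctble_nonneg h0 _) hle
    · exact ctble_le_tsum h0 hadd p hp hs
  rw [← h1]
  exact hs.hasSum

theorem ctble_pos (hm : IsContinuousOuterMeasure m) (h0 : ∀ a, 0 ≤ ν a)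
    (hadd : ∀ a b, Disjoint a b → ν (a ⊔ b) = ν a + ν b) (hpos : ∀ a, a ≠ ⊥ → 0 < ν a)
    (a : B) (ha : a ≠ ⊥) : 0 < ctble ν a := by
  by_contra hcon
  have hz : ctble ν a = 0 := le_antisymm (not_lt.mp hcon) (ctble_nonneg h0 a)
  have hma := hm.pos a ha
  have h1 : ∀ k : ℕ, ∃ b ≤ a, ν b ≤ (1 / 2 : ℝ) ^ k ∧ m (a \ b) ≤ m a / 4 * (1 / 2) ^ k := by
    intro k
    obtain ⟨c, ⟨p, hp, hpa, hc⟩, hlt⟩ := exists_lt_of_csInf_lt (sums_nonempty h0 hadd a)
      (show sInf (Sums ν a) < (1 / 2 : ℝ) ^ k by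
        rw [show sInf (Sums ν a) = ctble ν a from rfl, hz]; positivity)
    let b : ℕ → B := fun n => ⨆ j ∈ Finset.range n, p j
    have hbmono : Monotone b := by
      intro i j hij
      exact biSup_mono fun l hl => Finset.mem_range.mpr ((Finset.mem_range.mp hl).trans_le hij)
    have hanti : Antitone fun n => a \ b n := fun i j hij => sdiff_le_sdiff_left (hbmono hij)
    have hinf : ⨅ n, a \ b n = ⊥ := by
      rw [eq_bot_iff]
      have h2 : ⨅ n, a \ b n ≤ a := (iInf_le _ 0).trans sdiff_le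
      have h3 : ∀ j, Disjoint (⨅ n, a \ b n) (p j) := by
        intro j
        refine Disjoint.mono_left (iInf_le _ (j + 1)) ?_
        refine Disjoint.mono_right ?_ disjoint_sdiff_self_left
        exact le_iSup₂ (f := fun l (_ : l ∈ Finset.range (j + 1)) => p l) j
          (Finset.mem_range.mpr (Nat.lt_succ_self j))
      have h4 : Disjoint (⨅ n, a \ b n) (⨆ j, p j) := disjoint_iSup_iff.mpr h3
      rw [hpa] at h4
      exact (h4.mono_right h2).eq_bot_of_self.le
    have ht := hm.cont _ hanti hinf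
    have hev : ∀ᶠ n in atTop, m (a \ b n) < m a / 4 * (1 / 2) ^ k :=
      ht.eventually_lt_const (by positivity)
    obtain ⟨n, hn⟩ := hev.exists
    refine ⟨b n, ?_, ?_, hn.le⟩
    · rw [← hpa]
      exact iSup₂_le fun j _ => le_iSup p j
    · rw [nu_finset hadd p hp]
      exact (sum_le_hasSum _ (fun j _ => h0 _) hc).trans hlt.le
  choose b hba hνb hmb using h1
  let e : B := ⨅ k, b k
  have he : m (a \ e) ≤ m a / 2 := by
    have h2 : a \ e = ⨆ k, a \ b k := sdiff_iInf_eq
    rw [h2]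
    refine countable_subadd hm _ _ fun n => ?_
    calc ∑ k ∈ Finset.range n, m (a \ b k)
        ≤ ∑ k ∈ Finset.range n, m a / 4 * (1 / 2) ^ k := Finset.sum_le_sum fun k _ => hmb k
      _ = m a / 4 * ∑ k ∈ Finset.range n, (1 / 2 : ℝ) ^ k := by rw [Finset.mul_sum]
      _ ≤ m a / 4 * 2 := by
        apply mul_le_mul_of_nonneg_left _ (by positivity)
        exact sum_geometric_two_le n
      _ = m a / 2 := by ring
  have hne : e ≠ ⊥ := by
    intro h
    rw [h, sdiff_bot] at he
    linarith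
  have hν := hpos e hne
  have ht : Tendsto (fun k : ℕ => (1 / 2 : ℝ) ^ k) atTop (𝓝 0) :=
    tendsto_pow_atTop_nhds_zero_of_lt_one (by norm_num) (by norm_num)
  have := ge_of_tendsto' ht fun k => (nu_mono h0 hadd (iInf_le b k)).trans (hνb k)
  linarith

end ctble

/-- Let `B` be a complete Boolean algebra which carries a continuous outer measure, and suppose
that each countably generated complete subalgebra of `B` admits a measure. Then `B` admits a
measure. (The countable chain condition is not needed: it follows from the existence of a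
continuous outer measure.) -/
theorem result (B : Type u) [CompleteBooleanAlgebra B]
    (hm : ∃ m : B → ℝ, IsContinuousOuterMeasure m)
    (hsub : ∀ C : BooleanSubalgebra B, IsCompleteSubalgebra C → IsCountablyGenerated C →
      ∃ μ : C → ℝ, IsMeasure μ) :
    ∃ μ : B → ℝ, IsMeasure μ := by
  obtain ⟨m, hm⟩ := hm
  obtain ⟨ν, h0, hadd, hpos⟩ := exists_charge_pos hm hsub
  refine ⟨ctble ν, fun a => ctble_nonneg h0 a, fun a ha => ctble_pos hm h0 hadd hpos a ha, ?_⟩
  intro a b ha hb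
  have hb2 : b = ⨆ n, a n := hb.unique isLUB_iSup
  rw [hb2]
  exact ctble_hasSum h0 hadd a ha

end Pool.Agent.Results.MP_2d6919_lc.MaharamSubalgebras
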